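import Pool.Agent.H500.R2.Main
import Pool.Agent.H500.R2.All

set_option autoImplicit false
set_option linter.unusedSectionVars false

/-!
# Large residual images for two-dimensional families over an arbitrary number field

Let `K` and `E` be number fields such that `E` contains all the conjugates of `K`, and for the places
`v` of `K` which do not divide a given integer `N` let `a v`, `d v` be elements of `𝓞_E` (in the application:
`a v = θ(T_v)`, `d v = θ(S_v) N(v)` for a character `θ` of the Hecke algebra of weight two).  We consider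
the residual representations attached to these data at the places `lam` of `E` (`IsRes`): homomorphisms
`ρ : G_K → GL_2(k)`, `k ⊇ 𝓞_E / lam`, with open kernel, unramified outside `N` and the residue
characteristic of `lam`, with Frobenius polynomials `X² - a v X + d v` modulo `lam`; there is no condition
at all at the places above the residue characteristic and at those dividing `N`.

(1) Outside a set of places `lam` of `E` of natural density zero the images of all these residual
representations are large (`Large`: order divisible by `l`, absolutely irreducible on each open normal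
subgroup of index prime to `l`), unless
* `HeckeReducible`: `X² - a v X + d v = (X - ψ₁(v)) (X - ψ₂(v))` for all `v ∤ N`, with algebraic Hecke
  characters `ψ₁, ψ₂` of `K`, of conductor dividing a power of `N`, or
* `Dihedral`: there is a quadratic extension of `K`, unramified outside `N`, such that `a v = 0` for all the
  inert `v ∤ N`, or
* `ProjFinite`: `(a v)² = (ζ + ζ⁻¹ + 2) d v` with `ζ^60 = 1`, for all `v ∤ N`.

(2) In weight two (`d v = b v N(v)` with roots of unity `b v` of bounded order) the third case is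
impossible, and in the first case there is a set `Φ` of embeddings of `K` in `E` such that
`a v = ∏_{σ ∈ Φ} σ(x) + ∏_{σ ∉ Φ} σ(x)` for all the `v = (x)`, `x` totally positive, `x ≡ 1` modulo some power of `N`.
-/

namespace Pool.Agent.Results.MP_976e2b_nt.LargeResidualImages

open NumberField IsDedekindDomain Filter Topology
open Pool.Agent.W401.Cheb (GK IsFrob IsInert dens)
open Pool.Agent.H500.HC (InRay TotPos QBar ZBar em typ jz)
open Pool.Agent.H500.R2

variable {K E : Type} [Field K] [NumberField K] [Field E] [NumberField E]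

/-- `X² - a v X + d v = (X - ψ₁(v)) (X - ψ₂(v))` with algebraic Hecke characters: multiplicative functions
`ψ_i` of the ideals of `K` with values in the ring of all algebraic integers, zero exactly at the
ideals which are not prime to `N`, with `ψ_i((x)) = ∏_σ σ(x)^{t_i(σ)}` for the totally positive
`x ≡ 1` modulo `N^e` -/
def HeckeReducible (N : ℕ) (a d : HeightOneSpectrum (𝓞 K) → 𝓞 E) : Prop :=
  ∃ (j : E →+* QBar) (e : ℕ) (t : Fin 2 → (K →+* E) → ℕ) (ψ : Fin 2 → (Ideal (𝓞 K) →*₀ ZBar)),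
    (∀ i (𝔞 : Ideal (𝓞 K)), 𝔞 ≠ ⊥ → (ψ i 𝔞 ≠ 0 ↔ IsCoprime 𝔞 (Ideal.span {(N : 𝓞 K)}))) ∧
    (∀ i (x : 𝓞 K), InRay (N ^ e) x → ψ i (Ideal.span {x}) = jz j (∏ σ, em σ x ^ t i σ)) ∧
    ∀ v : HeightOneSpectrum (𝓞 K), (N : 𝓞 K) ∉ v.asIdeal →
      jz j (a v) = ψ 0 v.asIdeal + ψ 1 v.asIdeal ∧ jz j (d v) = ψ 0 v.asIdeal * ψ 1 v.asIdeal

/-- `a v = 0` for all the `v ∤ N` which are inert in a quadratic extension of `K`, unramified at the
places not dividing `N` (given by a subgroup `U` of index two of the Galois group) -/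
def Dihedral (N : ℕ) (a : HeightOneSpectrum (𝓞 K) → 𝓞 E) : Prop :=
  ∃ U : Subgroup (GK K), IsOpen (U : Set (GK K)) ∧ U.index = 2 ∧ UnrOut N U ∧
    ∀ v : HeightOneSpectrum (𝓞 K), (N : 𝓞 K) ∉ v.asIdeal → ∀ σ, IsFrob v σ → σ ∉ U → a v = 0

/-- `(a v)² = (ζ + ζ⁻¹ + 2) d v` with a `60`-th root of unity `ζ`, for all `v ∤ N` -/
def ProjFinite (N : ℕ) (a d : HeightOneSpectrum (𝓞 K) → 𝓞 E) : Prop :=
  ∀ v : HeightOneSpectrum (𝓞 K), (N : 𝓞 K) ∉ v.asIdeal → ∃ ζ : AlgebraicClosure E, ζ ^ 60 = 1 ∧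
    algebraMap E (AlgebraicClosure E) (a v) ^ 2 =
      (ζ + ζ⁻¹ + 2) * algebraMap E (AlgebraicClosure E) (d v)

open scoped Classical in
/-- `a v = ∏_{σ ∈ Φ} σ(x) + ∏_{σ ∉ Φ} σ(x)` for all `v = (x)`, `v ∤ N`, `x` totally positive, `x ≡ 1` modulo `N^e` -/
def Eisenstein (N : ℕ) (a : HeightOneSpectrum (𝓞 K) → 𝓞 E) : Prop :=
  ∃ (Φ : (K →+* E) → Prop) (e : ℕ), ∀ (v : HeightOneSpectrum (𝓞 K)) (x : 𝓞 K),
    (N : 𝓞 K) ∉ v.asIdeal → v.asIdeal = Ideal.span {x} → InRay (N ^ e) x →
    a v = (∏ σ, if Φ σ then em σ x else 1) + ∏ σ, if Φ σ then 1 else em σ x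

theorem result
    -- `E` contains all the conjugates of `K`
    (hE : Fintype.card (K →+* E) = Module.finrank ℚ K)
    (N : ℕ) (hN : 2 ≤ N) (a d : HeightOneSpectrum (𝓞 K) → 𝓞 E) :
    -- (1) the general case
    (Tendsto (dens fun lam : HeightOneSpectrum (𝓞 E) =>
        ∃ (k : Type) (_ : Field k) (φ : 𝓞 E →+* k) (ρ : GK K →* GL (Fin 2) k),
          IsRes N a d lam φ ρ ∧ ¬ Large ρ) atTop (𝓝 0) ∨
      HeckeReducible N a d ∨ Dihedral N a ∨ ProjFinite N a d) ∧
    -- (2) weight two
    ((∃ (M : ℕ) (b : HeightOneSpectrum (𝓞 K) → 𝓞 E), 0 < M ∧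
        ∀ v : HeightOneSpectrum (𝓞 K), (N : 𝓞 K) ∉ v.asIdeal → b v ^ M = 1 ∧
          d v = b v * ((Ideal.absNorm v.asIdeal : ℕ) : 𝓞 E)) →
      Tendsto (dens fun lam : HeightOneSpectrum (𝓞 E) =>
        ∃ (k : Type) (_ : Field k) (φ : 𝓞 E →+* k) (ρ : GK K →* GL (Fin 2) k),
          IsRes N a d lam φ ρ ∧ ¬ Large ρ) atTop (𝓝 0) ∨
      Eisenstein N a ∨ Dihedral N a) := by
  classical
  obtain ⟨j⟩ : Nonempty (E →+* QBar) := ⟨(IsAlgClosed.lift (R := ℚ) (S := E) (M := QBar)).toRingHom⟩
  constructor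
  · by_contra hcon
    simp only [not_or] at hcon
    obtain ⟨h1, h2, h3, h4⟩ := hcon
    apply h1
    refine main_gen all_Dih all_Spl all_Exc hE j N hN a d ?_ ?_ _ (fun lam h => h) ?_
    · rintro ⟨e, t, ψ, h5, h6, h7⟩
      exact h2 ⟨j, e, t, ψ, h5, h6, h7⟩
    · intro U hU1 hU2 hU3
      by_contra h5
      apply h3
      refine ⟨U, hU1, hU2, hU3, fun v hv σ hσ hσU => ?_⟩
      by_contra h6
      exact h5 ⟨v, hv, h6, σ, hσ, hσU⟩
    · intro _
      by_contra h5
      apply h4
      intro v hv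
      by_contra h6
      exact h5 ⟨v, hv, h6⟩
  · rintro ⟨M, b, hM, hb⟩
    by_contra hcon
    simp only [not_or] at hcon
    obtain ⟨h1, h2, h3⟩ := hcon
    apply h1
    refine main_gen all_Dih all_Spl all_Exc hE j N hN a d ?_ ?_ _ (fun lam h => h) ?_
    · rintro ⟨e, t, ψ, h5, h6, h7⟩
      apply h2
      have hNe : ∀ v : HeightOneSpectrum (𝓞 K), ((N ^ (e + 1) : ℕ) : 𝓞 K) ∉ v.asIdeal →
          (N : 𝓞 K) ∉ v.asIdeal := by
        intro v hv h8
        apply hv
        rw [Nat.cast_pow]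
        exact Ideal.pow_mem_of_mem _ h8 _ (Nat.succ_pos e)
      obtain ⟨Φ, hΦ⟩ := all_Eis K E hE j (N ^ (e + 1)) M a b t ψ (pow_pos (by omega) _) hM
        (fun i x hx => h6 i x (hx.mono (pow_dvd_pow N (Nat.le_succ e)))) (by
          intro v hv
          have h8 := hb v (hNe v hv)
          have h9 := h7 v (hNe v hv)
          refine ⟨h8.1, h9.1, ?_⟩
          rw [← h8.2]
          exact h9.2)
      refine ⟨Φ, e + 1, fun v x hv hvx hx => ?_⟩
      have h8 := hΦ v x (fun h => hv (by
        rw [Nat.cast_pow] at h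
        exact v.isPrime.mem_of_pow_mem _ h)) hvx hx
      convert h8
    · intro U hU1 hU2 hU3
      by_contra h5
      apply h3
      refine ⟨U, hU1, hU2, hU3, fun v hv σ hσ hσU => ?_⟩
      by_contra h6
      exact h5 ⟨v, hv, h6, σ, hσ, hσU⟩
    · intro hinf
      obtain ⟨v, hv, hv2⟩ := all_W2 K E hE N M a b (by omega) hM hinf (fun v hv => (hb v hv).1)
      refine ⟨v, hv, ?_⟩
      rintro ⟨ζ, hζ, hζ2⟩
      apply hv2
      refine ⟨ζ, hζ, ?_⟩
      rw [hζ2, (hb v hv).2]
      simp

end Pool.Agent.Results.MP_976e2b_nt.LargeResidualImages
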