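import Pool.Agent.H500.Core
import Pool.Agent.H500.Desc

set_option autoImplicit false
set_option linter.unusedSectionVars false

/-!
# Two Frobenius polynomials force residual irreducibility at a set of primes of density one

`K` and `E` are number fields, `S` a finite set of places of `K`, and `p ≠ q` two rational primes,
unramified in `K` and not below `S`.  For the places `v` of `K` above `p` or `q` we are given polynomials
`P v` with coefficients in `𝓞 E` and roots `α v i ∈ 𝓞 F` (`i < n`), where `F` is a finite extension of `E`.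
For a weight two eigenclass `θ` as in the question, `n = 2`, `E = E_θ` and `P v = X² - a_v X + b_v Nv`.

A residual representation at a prime `ℓ` is a homomorphism `ρ` from the absolute Galois group of `K` to
`GL_n(k)` with open kernel, `k` a field containing the residue field of `ℓ`, unramified at the places of
`K` outside `S` and prime to `ℓ`, whose Frobenius elements at the places above `p` and `q` have the given
characteristic polynomials modulo `ℓ`.  Nothing is assumed about the restriction of `ρ` to the decomposition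
groups above `ℓ` (no Hodge-Tate weights, no weight two condition), about the ramification at `S`, or about
the other Frobenius elements.

The theorem says that all residual representations are irreducible outside a set of primes of natural
density zero, unless the given roots satisfy the obvious relations: for some `0 < m < n` one can choose `m`
of the roots at each `v ∣ p q` such that the products `A`, `B` of the chosen roots over all `v ∣ p`,
respectively `v ∣ q`, are the same rational power of `p`, respectively `q`, up to roots of unity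
(`A ^ N = p ^ a` and `B ^ N = q ^ a` with `N > 0`).

The first part is about the primes of `F` and all `k` (so about absolute irreducibility), the second part
about the primes of `E` and `k` the residue field of `𝓞 E`.
-/

namespace Pool.Agent.Results.MP_976e2b_nt.ResidualIrreducibility

open NumberField IsDedekindDomain Filter Topology Polynomial
open Pool.Agent.W401.Cheb (GK IsFrob IsInert dens)

/-- `ρ` is a residual representation at the prime `ℓ` of the number field `R`, with the Frobenius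
polynomials `P v` at the places above `p` and `q`; `φ` is the reduction modulo `ℓ`. -/
structure IsResidual {K R : Type} [Field K] [NumberField K] [Field R] [NumberField R]
    (S : Finset (HeightOneSpectrum (𝓞 K))) (p q : ℕ) {n : ℕ}
    (P : HeightOneSpectrum (𝓞 K) → (𝓞 R)[X]) (ℓ : HeightOneSpectrum (𝓞 R))
    {k : Type} [Field k] (φ : 𝓞 R →+* k) (ρ : GK K →* GL (Fin n) k) : Prop where
  /-- `φ` is a reduction modulo `ℓ` -/
  ker : RingHom.ker φ = ℓ.asIdeal
  /-- `ρ` is continuous -/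
  continuous : IsOpen (ρ.ker : Set (GK K))
  /-- `ρ` is unramified outside `S` and the places dividing the norm of `ℓ` -/
  unramified : ∀ v ∉ S, ((Ideal.absNorm ℓ.asIdeal : ℕ) : 𝓞 K) ∉ v.asIdeal →
    ∀ τ, IsInert v τ → ρ τ = 1
  /-- the Frobenius polynomials at the places above `p` and `q` -/
  frob : ∀ v : HeightOneSpectrum (𝓞 K), (p : 𝓞 K) ∈ v.asIdeal ∨ (q : 𝓞 K) ∈ v.asIdeal →
    ∀ σ, IsFrob v σ → (ρ σ : Matrix (Fin n) (Fin n) k).charpoly = (P v).map φ

/-- `ρ` stabilises a proper nonzero subspace -/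
def Reducible {G : Type} [Group G] {k : Type} [Field k] {n : ℕ} (ρ : G →* GL (Fin n) k) : Prop :=
  ∃ W : Submodule k (Fin n → k), W ≠ ⊥ ∧ W ≠ ⊤ ∧
    ∀ g, ∀ w ∈ W, Matrix.mulVec (ρ g : Matrix (Fin n) (Fin n) k) w ∈ W

theorem result {K E F : Type} [Field K] [NumberField K] [Field E] [NumberField E] [Field F]
    [NumberField F] [Algebra E F]
    (n : ℕ) (p q : ℕ) (hp : p.Prime) (hq : q.Prime) (hpq : p ≠ q)
    -- `p` and `q` are unramified in `K`
    (hup : ∀ v : HeightOneSpectrum (𝓞 K), (p : 𝓞 K) ∈ v.asIdeal → (p : 𝓞 K) ∉ v.asIdeal ^ 2)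
    (huq : ∀ v : HeightOneSpectrum (𝓞 K), (q : 𝓞 K) ∈ v.asIdeal → (q : 𝓞 K) ∉ v.asIdeal ^ 2)
    -- `Sp` and `Sq` are the sets of places above `p` and `q`, and `S` does not meet them
    (Sp Sq S : Finset (HeightOneSpectrum (𝓞 K)))
    (hSp : ∀ v, v ∈ Sp ↔ (p : 𝓞 K) ∈ v.asIdeal) (hSq : ∀ v, v ∈ Sq ↔ (q : 𝓞 K) ∈ v.asIdeal)
    (hS : ∀ v ∈ S, v ∉ Sp ∧ v ∉ Sq)
    -- the Frobenius polynomials and their roots
    (P : HeightOneSpectrum (𝓞 K) → (𝓞 E)[X]) (α : HeightOneSpectrum (𝓞 K) → Fin n → 𝓞 F)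
    (hP : ∀ v, v ∈ Sp ∨ v ∈ Sq → (P v).map (algebraMap (𝓞 E) (𝓞 F)) = ∏ i, (X - C (α v i)))
    -- the roots do not satisfy the obvious relations
    (hα : ∀ (m : ℕ) (I : HeightOneSpectrum (𝓞 K) → Finset (Fin n)) (N a : ℕ), 0 < m → m < n →
      (∀ v, (I v).card = m) → 0 < N →
      ¬ ((∏ v ∈ Sp, ∏ i ∈ I v, α v i) ^ N = (p : 𝓞 F) ^ a ∧
        (∏ v ∈ Sq, ∏ i ∈ I v, α v i) ^ N = (q : 𝓞 F) ^ a)) :
    Tendsto (dens fun ℓ : HeightOneSpectrum (𝓞 F) =>
      ∃ (k : Type) (_ : Field k) (φ : 𝓞 F →+* k) (ρ : GK K →* GL (Fin n) k),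
        IsResidual S p q (fun v => (P v).map (algebraMap (𝓞 E) (𝓞 F))) ℓ φ ρ ∧ Reducible ρ)
      atTop (𝓝 0) ∧
    Tendsto (dens fun ℓ : HeightOneSpectrum (𝓞 E) =>
      ∃ (k : Type) (_ : Field k) (φ : 𝓞 E →+* k) (ρ : GK K →* GL (Fin n) k),
        Function.Surjective φ ∧ IsResidual S p q P ℓ φ ρ ∧ Reducible ρ)
      atTop (𝓝 0) := by
  classical
  set S0 : Finset (HeightOneSpectrum (𝓞 K)) := Sp ∪ Sq with hS0def
  have hS0 : ∀ v, v ∈ S0 ↔ v ∈ Sp ∨ v ∈ Sq := fun v => Finset.mem_union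
  obtain ⟨r0, hr0⟩ := Pool.Agent.H500.Core.core (F := F) n p q hp hq hup huq Sp Sq S S0 hSp hSq hS
    hS0 α
  have hnorel := Pool.Agent.H500.Core.no_rel (p := p) (q := q) Sp Sq S0 hS0 α hα
  -- powers of nonzero natural numbers
  have hExF : ∀ (R : Type) [Field R] [NumberField R],
      Tendsto (dens fun ℓ : HeightOneSpectrum (𝓞 R) => (p : 𝓞 R) ∈ ℓ.asIdeal ∨
        (q : 𝓞 R) ∈ ℓ.asIdeal) atTop (𝓝 0) := by
    intro R _ _
    refine Pool.Agent.H500.Kum.dens_fin _ ?_
    exact (Pool.Agent.H500.Kum.fin_mem (Nat.cast_ne_zero.2 hp.ne_zero)).union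
      (Pool.Agent.H500.Kum.fin_mem (Nat.cast_ne_zero.2 hq.ne_zero))
  constructor
  · -- the primes of `F`
    refine Pool.Agent.H500.Core.dens_union (Ch := S0 → Finset (Fin n)) _ (fun ℓ =>
      (p : 𝓞 F) ∈ ℓ.asIdeal ∨ (q : 𝓞 F) ∈ ℓ.asIdeal) (fun J ℓ => Pool.Agent.H500.Core.Adm J ∧
      Pool.Agent.H500.Core.Pr S0 Sp α J ∉ ℓ.asIdeal ∧
      Pool.Agent.H500.Core.Pr S0 Sq α J ∉ ℓ.asIdeal ∧
      ∀ r : ℕ, r.Prime → r0 < r → (r : 𝓞 F) ∉ ℓ.asIdeal → ∃ u a : ℕ, ¬ r ∣ u ∧
        Pool.Agent.H500.Core.Pr S0 Sp α J ^ u - (p : 𝓞 F) ^ a ∈ ℓ.asIdeal ∧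
        Pool.Agent.H500.Core.Pr S0 Sq α J ^ u - (q : 𝓞 F) ^ a ∈ ℓ.asIdeal) ?_ (hExF F) ?_
    · rintro ℓ ⟨k, _, φ, ρ, hρ, W, hW0, hW1, hWs⟩
      by_cases hexc : (p : 𝓞 F) ∈ ℓ.asIdeal ∨ (q : 𝓞 F) ∈ ℓ.asIdeal
      · exact Or.inl hexc
      right
      push Not at hexc
      obtain ⟨hpℓ, hqℓ⟩ := hexc
      have hmem : ∀ x : 𝓞 F, x ∈ ℓ.asIdeal ↔ φ x = 0 := by
        intro x
        rw [← hρ.ker, RingHom.mem_ker]
      obtain ⟨l, hl, hlc, hcast, hnorm⟩ := Pool.Agent.H500.Core.res_char (K := K) ℓ φ hρ.ker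
      have hlf : Fact l.Prime := ⟨hl⟩
      have hlp : l ≠ p := by
        rintro rfl
        exact hpℓ ((hcast _).2 dvd_rfl)
      have hlq : l ≠ q := by
        rintro rfl
        exact hqℓ ((hcast _).2 dvd_rfl)
      obtain ⟨J, hJ, A0, B0, hA0, hB0, hA, hB, hrel⟩ := hr0 l k k (RingHom.id k) φ ρ hlp hlq
        hρ.continuous (fun v hv hlv => hρ.unramified v hv (hnorm v hlv)) (by
        intro v hv σ hσ
        rw [hρ.frob v hv σ hσ, Polynomial.map_id, hP v (by
          rcases hv with h | h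
          · exact Or.inl ((hSp v).2 h)
          · exact Or.inr ((hSq v).2 h)), Polynomial.map_prod]
        refine Finset.prod_congr rfl fun i _ => ?_
        rw [Polynomial.map_sub, Polynomial.map_X, Polynomial.map_C]) W hW0 hW1 hWs
      rw [RingHom.id_apply] at hA hB
      refine ⟨J, hJ, ?_, ?_, ?_⟩
      · rw [hmem, ← hA]
        exact hA0
      · rw [hmem, ← hB]
        exact hB0
      · intro r hr hr0' hrℓ
        have hrl : r ≠ l := by
          rintro rfl
          exact hrℓ ((hcast _).2 dvd_rfl)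
        obtain ⟨u, b, hu, h1, h2⟩ := hrel r hr hr0' hrl
        refine ⟨u, b, hu, ?_, ?_⟩
        · rw [hmem, map_sub, map_pow, map_pow, map_natCast, ← hA, h1, sub_self]
        · rw [hmem, map_sub, map_pow, map_pow, map_natCast, ← hB, h2, sub_self]
    · intro J
      by_cases hex : Pool.Agent.H500.Core.Adm J ∧ Pool.Agent.H500.Core.Pr S0 Sp α J ≠ 0 ∧
          Pool.Agent.H500.Core.Pr S0 Sq α J ≠ 0
      · obtain ⟨hJ, hA, hB⟩ := hex
        exact Pool.Agent.H500.Kum.density hp hq hpq hA hB (hnorel J hJ) _ r0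
          (fun v hv => hv.2.2.2)
      · refine Pool.Agent.H500.Kum.dens_fin _ ?_
        convert Set.finite_empty
        ext ℓ
        refine ⟨?_, fun h => absurd h (Set.notMem_empty _)⟩
        rintro ⟨h1, h2, h3, -⟩
        exfalso
        apply hex
        refine ⟨h1, ?_, ?_⟩
        · intro h
          rw [h] at h2
          exact h2 ℓ.asIdeal.zero_mem
        · intro h
          rw [h] at h3
          exact h3 ℓ.asIdeal.zero_mem
  · -- the primes of `E`
    refine Pool.Agent.H500.Core.dens_union (Ch := S0 → Finset (Fin n)) _ (fun ℓ =>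
      (p : 𝓞 E) ∈ ℓ.asIdeal ∨ (q : 𝓞 E) ∈ ℓ.asIdeal) (fun J ℓ => Pool.Agent.H500.Core.Adm J ∧
      ∃ (k' : Type) (_ : Field k') (φ : 𝓞 F →+* k'),
      RingHom.ker (φ.comp (algebraMap (𝓞 E) (𝓞 F))) = ℓ.asIdeal ∧
      φ (Pool.Agent.H500.Core.Pr S0 Sp α J) ≠ 0 ∧ φ (Pool.Agent.H500.Core.Pr S0 Sq α J) ≠ 0 ∧
      (∃ a : 𝓞 E, φ (Pool.Agent.H500.Core.Pr S0 Sp α J) = φ (algebraMap (𝓞 E) (𝓞 F) a)) ∧
      (∃ a : 𝓞 E, φ (Pool.Agent.H500.Core.Pr S0 Sq α J) = φ (algebraMap (𝓞 E) (𝓞 F) a)) ∧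
      ∀ r : ℕ, r.Prime → r0 < r → (r : k') ≠ 0 → ∃ u a : ℕ, ¬ r ∣ u ∧
        φ (Pool.Agent.H500.Core.Pr S0 Sp α J) ^ u = (p : k') ^ a ∧
        φ (Pool.Agent.H500.Core.Pr S0 Sq α J) ^ u = (q : k') ^ a) ?_ (hExF E) ?_
    · rintro ℓ ⟨k, _, φ, ρ, hφs, hρ, W, hW0, hW1, hWs⟩
      by_cases hexc : (p : 𝓞 E) ∈ ℓ.asIdeal ∨ (q : 𝓞 E) ∈ ℓ.asIdeal
      · exact Or.inl hexc
      right
      push Not at hexc
      obtain ⟨hpℓ, hqℓ⟩ := hexc
      obtain ⟨l, hl, hlc, hcast, hnorm⟩ := Pool.Agent.H500.Core.res_char (K := K) ℓ φ hρ.ker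
      have hlf : Fact l.Prime := ⟨hl⟩
      have hlp : l ≠ p := by
        rintro rfl
        exact hpℓ ((hcast _).2 dvd_rfl)
      have hlq : l ≠ q := by
        rintro rfl
        exact hqℓ ((hcast _).2 dvd_rfl)
      -- a prime of `F` above
      have hint : Algebra.IsIntegral (𝓞 E) (𝓞 F) := inferInstance
      have hmaxE := ℓ.isMaximal
      obtain ⟨Q, hQm, hQ⟩ := Ideal.exists_ideal_over_maximal_of_isIntegral (S := 𝓞 F) ℓ.asIdeal
        (by
          have hinj : Function.Injective (algebraMap (𝓞 E) (𝓞 F)) :=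
            FaithfulSMul.algebraMap_injective _ _
          rw [(RingHom.injective_iff_ker_eq_bot _).1 hinj]
          exact bot_le)
      let _ : Field (𝓞 F ⧸ Q) := Ideal.Quotient.field Q
      set φ' : 𝓞 F →+* 𝓞 F ⧸ Q := Ideal.Quotient.mk Q with hφ'
      have hker' : RingHom.ker (φ'.comp (algebraMap (𝓞 E) (𝓞 F))) = ℓ.asIdeal := by
        rw [← hQ, hφ', ← RingHom.comap_ker, Ideal.mk_ker]
      have hle : RingHom.ker φ ≤ RingHom.ker (φ'.comp (algebraMap (𝓞 E) (𝓞 F))) := by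
        rw [hker', hρ.ker]
      set ι : k →+* 𝓞 F ⧸ Q := RingHom.liftOfSurjective φ hφs
        ⟨φ'.comp (algebraMap (𝓞 E) (𝓞 F)), hle⟩ with hι
      have hιφ : ∀ x : 𝓞 E, ι (φ x) = φ' (algebraMap (𝓞 E) (𝓞 F) x) := fun x =>
        RingHom.liftOfRightInverse_comp_apply _ _ _ ⟨φ'.comp (algebraMap (𝓞 E) (𝓞 F)), hle⟩ x
      have hιφ' : ι.comp φ = φ'.comp (algebraMap (𝓞 E) (𝓞 F)) := RingHom.ext hιφ
      obtain ⟨J, hJ, A0, B0, hA0, hB0, hA, hB, hrel⟩ := hr0 l k (𝓞 F ⧸ Q) ι φ' ρ hlp hlq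
        hρ.continuous (fun v hv hlv => hρ.unramified v hv (hnorm v hlv)) (by
        intro v hv σ hσ
        rw [hρ.frob v hv σ hσ, Polynomial.map_map, hιφ', ← Polynomial.map_map, hP v (by
          rcases hv with h | h
          · exact Or.inl ((hSp v).2 h)
          · exact Or.inr ((hSq v).2 h)), Polynomial.map_prod]
        refine Finset.prod_congr rfl fun i _ => ?_
        rw [Polynomial.map_sub, Polynomial.map_X, Polynomial.map_C]) W hW0 hW1 hWs
      obtain ⟨a, ha⟩ := hφs A0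
      obtain ⟨b, hb⟩ := hφs B0
      refine ⟨J, hJ, 𝓞 F ⧸ Q, inferInstance, φ', hker', ?_, ?_, ⟨a, ?_⟩, ⟨b, ?_⟩, ?_⟩
      · rw [← hA]
        exact (map_ne_zero ι).2 hA0
      · rw [← hB]
        exact (map_ne_zero ι).2 hB0
      · rw [← hA, ← ha, hιφ]
      · rw [← hB, ← hb, hιφ]
      · intro r hr hr0' hrQ
        have hrl : r ≠ l := by
          rintro rfl
          apply hrQ
          have h1 : ((r : ℕ) : 𝓞 E) ∈ ℓ.asIdeal := (hcast _).2 dvd_rfl
          rw [← hker', RingHom.mem_ker, map_natCast] at h1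
          exact h1
        obtain ⟨u, c, hu, h1, h2⟩ := hrel r hr hr0' hrl
        refine ⟨u, c, hu, ?_, ?_⟩
        · rw [← hA, ← map_pow, h1, map_pow, map_natCast]
        · rw [← hB, ← map_pow, h2, map_pow, map_natCast]
    · intro J
      by_cases hex : Pool.Agent.H500.Core.Adm J ∧ Pool.Agent.H500.Core.Pr S0 Sp α J ≠ 0 ∧
          Pool.Agent.H500.Core.Pr S0 Sq α J ≠ 0
      · obtain ⟨hJ, hA, hB⟩ := hex
        refine Pool.Agent.H500.Desc.descend hp hq hpq hA hB (hnorel J hJ) _ r0 ?_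
        rintro v ⟨-, k', _, φ, h1, -, -, h2, h3, h4⟩
        exact ⟨k', _, φ, h1, h2, h3, h4⟩
      · refine Pool.Agent.H500.Kum.dens_fin _ ?_
        convert Set.finite_empty
        ext ℓ
        refine ⟨?_, fun h => absurd h (Set.notMem_empty _)⟩
        rintro ⟨h1, k', _, φ, -, h2, h3, -⟩
        exfalso
        apply hex
        refine ⟨h1, ?_, ?_⟩
        · intro h
          rw [h, map_zero] at h2
          exact h2 rfl
        · intro h
          rw [h, map_zero] at h3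
          exact h3 rfl

end Pool.Agent.Results.MP_976e2b_nt.ResidualIrreducibility
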